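import Mathlib
import Pool.Agent.H77.GQ.Stm2
import Pool.Agent.H71.TD.Mlt

/-!
# Project GQ, module B2S: the sum of the multiplicities
-/

set_option autoImplicit false

open MvPolynomial Module

namespace Pool.Agent.H15.GQ

open Pool.Agent.H77.TF Pool.Agent.H77.GQ

/-- **Module B2S.** -/
theorem b2s : S_B2S := by
  classical
  intro K _ n A hA
  obtain ⟨T, hT⟩ : ∃ T : Fin n → Finset (Submodule K (Fin 3 → K)),
      T = fun s => ((Finset.univ.filter (· < s)).image fun i => Submodule.span K {A s, A i}) :=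
    ⟨_, rfl⟩
  have hfr : ∀ s i : Fin n, i ≠ s → finrank K (Submodule.span K {A s, A i}) = 2 := fun s i h =>
    Pool.Agent.H71.TD.finrank_pair _ _ (hA.1 s) fun c => hA.2 i s h c
  have hmem : ∀ (s : Fin n) (W : Submodule K (Fin 3 → K)),
      W ∈ T s ↔ finrank K W = 2 ∧ A s ∈ W ∧ ∃ i < s, A i ∈ W := by
    intro s W
    rw [hT, Finset.mem_image]
    constructor
    · rintro ⟨i, hi, rfl⟩
      have hi' : i < s := (Finset.mem_filter.1 hi).2
      exact ⟨hfr s i hi'.ne, Submodule.subset_span (by simp), i, hi',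
        Submodule.subset_span (by simp)⟩
    · rintro ⟨h1, h2, i, hi, h3⟩
      refine ⟨i, Finset.mem_filter.2 ⟨Finset.mem_univ _, hi⟩, ?_⟩
      refine Submodule.eq_of_le_of_finrank_eq ?_ ?_
      · rw [Submodule.span_le]
        rintro x (rfl | rfl)
        · exact h2
        · exact h3
      · rw [h1]
        exact hfr s i hi.ne
  have hcard : ∀ s, hn A s = (T s).card := by
    intro s
    have h1 : (Set.range fun i : Fin (s : ℕ) => Submodule.span K {A s, A (Fin.castLE s.2.le i)}) =
        (T s : Set (Submodule K (Fin 3 → K))) := by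
      ext W
      rw [hT, Set.mem_range, Finset.mem_coe, Finset.mem_image]
      constructor
      · rintro ⟨i, rfl⟩
        exact ⟨Fin.castLE s.2.le i, Finset.mem_filter.2 ⟨Finset.mem_univ _, i.2⟩, rfl⟩
      · rintro ⟨i, hi, rfl⟩
        have hi' : i < s := (Finset.mem_filter.1 hi).2
        exact ⟨⟨i.1, hi'⟩, rfl⟩
    unfold hn
    rw [h1, Nat.card_coe_set_eq, Set.ncard_coe_finset]
  -- the members of a plane other than the smallest one
  have hW : ∀ W : Submodule K (Fin 3 → K), finrank K W = 2 →
      Nat.card {i // A i ∈ W} - 1 = (Finset.univ.filter fun s => W ∈ T s).card := by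
    intro W hW
    obtain ⟨M, hM⟩ : ∃ M : Finset (Fin n), M = Finset.univ.filter fun i => A i ∈ W := ⟨_, rfl⟩
    have h1 : Nat.card {i // A i ∈ W} = M.card := by
      rw [Nat.card_eq_fintype_card, Fintype.card_subtype, hM]
    rw [h1]
    rcases M.eq_empty_or_nonempty with h0 | h0
    · have h2 : (Finset.univ.filter fun s => W ∈ T s) = ∅ := by
        rw [Finset.filter_eq_empty_iff]
        intro s _ hs
        have h3 : s ∈ M := by
          rw [hM]
          exact Finset.mem_filter.2 ⟨Finset.mem_univ _, ((hmem s W).1 hs).2.1⟩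
        rw [h0] at h3
        exact Finset.notMem_empty _ h3
      rw [h2, h0]
      rfl
    · have h2 : (Finset.univ.filter fun s => W ∈ T s) = M.erase (M.min' h0) := by
        ext s
        rw [Finset.mem_filter, hmem, Finset.mem_erase]
        have hmM : ∀ i, i ∈ M ↔ A i ∈ W := by
          intro i
          rw [hM, Finset.mem_filter]
          exact and_iff_right (Finset.mem_univ _)
        constructor
        · rintro ⟨-, -, h3, i, hi, h4⟩
          refine ⟨?_, (hmM s).2 h3⟩
          rintro rfl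
          exact absurd (M.min'_le i ((hmM i).2 h4)) (not_le.2 hi)
        · rintro ⟨h3, h4⟩
          refine ⟨Finset.mem_univ _, hW, (hmM s).1 h4, M.min' h0,
            lt_of_le_of_ne (M.min'_le s h4) (Ne.symm h3), (hmM _).1 (M.min'_mem h0)⟩
      rw [h2, Finset.card_erase_of_mem (M.min'_mem h0)]
  rw [finsum_mem_eq_sum_of_inter_support_eq (t := Finset.univ.biUnion T)]
  · have h3 : ∀ W ∈ Finset.univ.biUnion T, Nat.card {i // A i ∈ W} - 1 =
        ∑ s, if W ∈ T s then 1 else 0 := by
      intro W hWm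
      obtain ⟨s, -, hs⟩ := Finset.mem_biUnion.1 hWm
      rw [hW W ((hmem s W).1 hs).1, Finset.card_filter]
    rw [Finset.sum_congr rfl h3, Finset.sum_comm]
    unfold b2
    refine Finset.sum_congr rfl fun s _ => ?_
    rw [hcard s, ← Finset.card_filter]
    congr 1
    ext W
    rw [Finset.mem_filter, Finset.mem_biUnion]
    exact ⟨fun h => ⟨⟨s, Finset.mem_univ _, h⟩, h⟩, fun h => h.2⟩
  · ext W
    simp only [Set.mem_inter_iff, Set.mem_ofPred_eq, Function.mem_support, Finset.mem_coe,
      Finset.mem_biUnion]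
    constructor
    · rintro ⟨h1, h2⟩
      refine ⟨?_, h2⟩
      rw [hW W h1] at h2
      obtain ⟨s, hs⟩ := Finset.card_pos.1 (Nat.pos_of_ne_zero h2)
      exact ⟨s, Finset.mem_univ _, (Finset.mem_filter.1 hs).2⟩
    · rintro ⟨⟨s, -, hs⟩, h2⟩
      exact ⟨((hmem s W).1 hs).1, h2⟩

end Pool.Agent.H15.GQ
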