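import Mathlib
import Pool.Agent.H77.GQ.Stm
import Pool.Agent.H27.TF.Pl3
import Pool.Agent.H77.TF.Pri
import Pool.Agent.H39.TD.Brk
import Pool.Agent.H15.TF.CIB

/-!
# Project GQ, module MLT (row MLQ): multiplicities of free arrangements
-/

set_option autoImplicit false

open MvPolynomial Module

namespace Pool.Agent.H15.GQ

open Pool.Agent.H77.TF Pool.Agent.H77.GQ

variable {K : Type} [Field K] {ν : Type}

/-- homogeneous logarithmic fields in a homogeneous basis -/
theorem low (A : ν → Fin 3 → K) (e : Fin 3 → ℕ) (b : Basis (Fin 3) (MvPolynomial (Fin 3) K) (LD A))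
    (hb : ∀ j i, ((b j : Fin 3 → MvPolynomial (Fin 3) K) i).IsHomogeneous (e j))
    (ψ : Fin 3 → MvPolynomial (Fin 3) K) (hψ : ψ ∈ LD A) (d : ℕ) (hd : ∀ i, (ψ i).IsHomogeneous d) :
    ∃ c : Fin 3 → MvPolynomial (Fin 3) K,
      (∀ i, ψ i = ∑ j, c j * (b j : Fin 3 → MvPolynomial (Fin 3) K) i) ∧
      (∀ j, d < e j → c j = 0) ∧ ∀ j, e j ≤ d → (c j).IsHomogeneous (d - e j) := by
  classical
  set r := b.repr ⟨ψ, hψ⟩ with hr
  have h1 : ∀ i, ψ i = ∑ j, r j * (b j : Fin 3 → MvPolynomial (Fin 3) K) i := by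
    intro i
    have h2 := b.sum_repr ⟨ψ, hψ⟩
    have h3 := congrArg (fun z : LD A => (z : Fin 3 → MvPolynomial (Fin 3) K) i) h2
    simp only [Submodule.coe_sum, Finset.sum_apply, Submodule.coe_smul, Pi.smul_apply,
      smul_eq_mul] at h3
    exact h3.symm
  refine ⟨fun j => if e j ≤ d then homogeneousComponent (d - e j) (r j) else 0, ?_, ?_, ?_⟩
  · intro i
    have h4 := congrArg (homogeneousComponent d) (h1 i)
    rw [homogeneousComponent_eq_self (hd i), map_sum] at h4
    rw [h4]
    refine Finset.sum_congr rfl fun j _ => ?_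
    dsimp only
    by_cases hj : e j ≤ d
    · rw [if_pos hj]
      have h5 := Pool.Agent.H15.TF.comp_mul _ (r j) (e j) (d - e j) (hb j i)
      rw [Nat.add_sub_cancel' hj] at h5
      rw [mul_comm, h5, mul_comm]
    · rw [if_neg hj, zero_mul, mul_comm]
      exact Pool.Agent.H39.TD.comp_mul_lt _ _ _ _ (hb j i) (by omega)
  · intro j hj
    exact if_neg (by omega)
  · intro j hj
    dsimp only
    rw [if_pos hj]
    exact homogeneousComponent_isHomogeneous _ _

/-- **Module MLT.** -/
theorem mlt (hNUQ : S_NUQ) : Pool.Agent.H77.GQ.S_MLT := by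
  classical
  intro K _ n A a b hA hab hE W hW
  by_contra hcon
  push Not at hcon
  have hn := (hNUQ K n A a b hA hE).1
  obtain ⟨B, hB⟩ := hE
  obtain ⟨x, hx, hWx⟩ := Pool.Agent.H27.TF.exists_normal W hW
  set S : Finset (Fin n) := Finset.univ.filter fun i => A i ∉ W with hS
  set P : MvPolynomial (Fin 3) K := ∏ i ∈ S, lin (A i) with hP
  have hPne : P ≠ 0 := Finset.prod_ne_zero_iff.2 fun i _ => lin_ne_zero (hA.1 i)
  have hcard : S.card + Nat.card {i // A i ∈ W} = n := by
    rw [Nat.card_eq_fintype_card, Fintype.card_subtype, hS]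
    have h := Finset.card_filter_add_card_filter_not (s := (Finset.univ : Finset (Fin n)))
      (fun i => A i ∈ W)
    rw [Finset.card_univ, Fintype.card_fin] at h
    omega
  have hPh : P.IsHomogeneous S.card := by
    have := MvPolynomial.IsHomogeneous.prod S (fun i => lin (A i))
      (fun _ => 1) (fun i _ => Pool.Agent.H15.TF.lin_hom (A i))
    simpa using this
  set ψ : Fin 3 → MvPolynomial (Fin 3) K := fun l => P * C (x l) with hψdef
  have hψ : ψ ∈ LD A := by
    intro i
    have h1 : evl (A i) ψ = P * C (A i ⬝ᵥ x) := by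
      unfold evl
      rw [dotProduct, map_sum, Finset.mul_sum]
      refine Finset.sum_congr rfl fun l _ => ?_
      rw [hψdef, C_mul]
      ring
    rw [h1]
    by_cases hi : A i ∈ W
    · rw [(hWx _).1 hi, C_0, mul_zero]
      exact dvd_zero _
    · exact Dvd.dvd.mul_right (Finset.dvd_prod_of_mem (fun i => lin (A i))
        (Finset.mem_filter.2 ⟨Finset.mem_univ i, hi⟩)) _
  have hψh : ∀ i, (ψ i).IsHomogeneous S.card := by
    intro i
    have := hPh.mul (isHomogeneous_C (Fin 3) (x i))
    simpa [hψdef] using this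
  obtain ⟨l, hl⟩ := Function.ne_iff.1 hx
  rw [Pi.zero_apply] at hl
  have hψne : ψ l ≠ 0 := mul_ne_zero hPne (by rw [Ne, C_eq_zero]; exact hl)
  have hSa : S.card < a := by omega
  obtain ⟨c, hc1, hc2, hc3⟩ := low A ![1, a, b] B hB ψ hψ S.card hψh
  have hc_1 : c 1 = 0 := hc2 1 (by simpa using hSa)
  have hc_2 : c 2 = 0 := hc2 2 (by simpa using lt_of_lt_of_le hSa hab)
  rcases Nat.eq_zero_or_pos S.card with h0 | hpos
  · have hc_0 : c 0 = 0 := hc2 0 (by rw [h0]; simp)
    apply hψne
    rw [hc1 l, Fin.sum_univ_three, hc_0, hc_1, hc_2]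
    simp
  · have hθ : (X : Fin 3 → MvPolynomial (Fin 3) K) ∈ LD A := by
      intro i
      rw [evl_X]
    obtain ⟨c', hc1', hc2', hc3'⟩ := low A ![1, a, b] B hB X hθ 1 fun i => isHomogeneous_X K i
    have hc_1' : c' 1 = 0 := hc2' 1 (by simp; omega)
    have hc_2' : c' 2 = 0 := hc2' 2 (by simp; omega)
    have h1 : ∀ i, ψ i = c 0 * (B 0 : Fin 3 → MvPolynomial (Fin 3) K) i := by
      intro i
      rw [hc1 i, Fin.sum_univ_three, hc_1, hc_2]
      simp
    have h2 : ∀ i, (X i : MvPolynomial (Fin 3) K) =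
        c' 0 * (B 0 : Fin 3 → MvPolynomial (Fin 3) K) i := by
      intro i
      rw [hc1' i, Fin.sum_univ_three, hc_1', hc_2']
      simp
    -- `X r * ψ l = X l * ψ r`
    have h3 : ∀ r, X r * ψ l = X l * ψ r := by
      intro r
      rw [h1 l, h1 r, h2 r, h2 l]
      ring
    obtain ⟨r, hr⟩ := exists_ne l
    have h4 : C (x l) * X r = C (x r) * (X l : MvPolynomial (Fin 3) K) := by
      have h5 := h3 r
      rw [hψdef] at h5
      refine mul_left_cancel₀ hPne ?_
      dsimp only at h5
      linear_combination h5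
    have h6 := congrArg (coeff (Finsupp.single r 1)) h4
    rw [coeff_C_mul, coeff_C_mul] at h6
    have h7 : coeff (Finsupp.single r 1) (X r : MvPolynomial (Fin 3) K) = 1 := by
      simp [coeff_X]
    have h8 : coeff (Finsupp.single r 1) (X l : MvPolynomial (Fin 3) K) = 0 := by
      rw [coeff_X, if_neg]
      intro h
      have := Finsupp.single_left_injective (M := ℕ) one_ne_zero h
      exact hr this.symm
    rw [h7, h8, mul_one, mul_zero] at h6
    exact hl h6

end Pool.Agent.H15.GQ
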