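import Mathlib
import Pool.Agent.H77.GQ.Stm3
import Pool.Agent.H15.GQ.Mlq

/-!
# Project GQ, module EXO: a free arrangement has the exponents `1, a, b`
-/

set_option autoImplicit false

open MvPolynomial Module

namespace Pool.Agent.H15.GQ

open Pool.Agent.H77.TF Pool.Agent.H77.GQ

variable {K : Type} [Field K] {ν : Type}

theorem hasExp_perm {A : ν → Fin 3 → K} {e : Fin 3 → ℕ} (h : HasExp A e) (σ : Equiv.Perm (Fin 3)) :
    HasExp A (e ∘ σ) := by
  obtain ⟨b, hb⟩ := h
  refine ⟨b.reindex σ.symm, fun j i => ?_⟩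
  rw [Basis.reindex_apply, Equiv.symm_symm]
  exact hb (σ j) i

/-- a constant divisible by a linear form -/
theorem const_zero (a : Fin 3 → K) (E : MvPolynomial (Fin 3) K) (hE : E.IsHomogeneous 0)
    (h : lin a ∣ E) : E = 0 := by
  obtain ⟨r, hr⟩ := h
  have h1 : homogeneousComponent 0 E = E := homogeneousComponent_eq_self hE
  rw [← h1, homogeneousComponent_zero, hr]
  have h2 : coeff 0 (lin a * r) = 0 := by
    have : constantCoeff (lin a * r) = 0 := by
      rw [map_mul]
      simp [lin]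
    simpa [constantCoeff_eq] using this
  rw [h2, C_0]

/-- **Module EXO.** -/
theorem exo (hGRD : S_GRD) : S_EXO := by
  intro K _ n A hA hn hF
  obtain ⟨e, he⟩ := hGRD K 3 (Fin n) A hA hF
  obtain ⟨j₀, hj₀⟩ : ∃ j, e j = 1 := by
    by_contra hcon
    push Not at hcon
    obtain ⟨b, hb⟩ := he
    have hθ : (X : Fin 3 → MvPolynomial (Fin 3) K) ∈ LD A := by
      intro i
      rw [evl_X]
    obtain ⟨c, hc1, hc2, hc3⟩ := low A e b hb X hθ 1 fun i => isHomogeneous_X K i
    let i₀ : Fin n := ⟨0, hn⟩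
    have h1 : lin (A i₀) = ∑ j, c j * evl (A i₀) (b j : Fin 3 → MvPolynomial (Fin 3) K) := by
      have h2 : lin (A i₀) = ∑ i, C (A i₀ i) * X i := rfl
      rw [h2]
      simp only [evl, Finset.mul_sum]
      rw [Finset.sum_comm]
      refine Finset.sum_congr rfl fun i _ => ?_
      rw [hc1 i, Finset.mul_sum]
      refine Finset.sum_congr rfl fun j _ => ?_
      ring
    refine lin_ne_zero (hA.1 i₀) ?_
    rw [h1]
    refine Finset.sum_eq_zero fun j _ => ?_
    rcases Nat.eq_zero_or_pos (e j) with h0 | h0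
    · rw [const_zero (A i₀) (evl (A i₀) (b j : Fin 3 → MvPolynomial (Fin 3) K))
        (Pool.Agent.H15.TF.evl_hom _ _ _ fun i => by
          have := hb j i
          rwa [h0] at this) ((b j).2 i₀), mul_zero]
    · rw [hc2 j (by have := hcon j; omega), zero_mul]
  have h1 := hasExp_perm he (Equiv.swap 0 j₀)
  have h2 : e ∘ (Equiv.swap 0 j₀) = ![1, e (Equiv.swap 0 j₀ 1), e (Equiv.swap 0 j₀ 2)] := by
    funext i
    fin_cases i
    · simp [hj₀]
    · rfl
    · rfl
  rw [h2] at h1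
  rcases le_total (e (Equiv.swap 0 j₀ 1)) (e (Equiv.swap 0 j₀ 2)) with h | h
  · exact ⟨_, _, h, h1⟩
  · refine ⟨_, _, h, ?_⟩
    have h3 := hasExp_perm h1 (Equiv.swap 1 2)
    have h4 : ![1, e (Equiv.swap 0 j₀ 1), e (Equiv.swap 0 j₀ 2)] ∘ (Equiv.swap (1 : Fin 3) 2) =
        ![1, e (Equiv.swap 0 j₀ 2), e (Equiv.swap 0 j₀ 1)] := by
      funext i
      fin_cases i
      · rfl
      · rfl
      · rfl
    rwa [h4] at h3

end Pool.Agent.H15.GQ
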